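import Pool.Agent.H592.TD.Stm

/-!
# Task S2 of project TD (helper921 for helper592): the Ramanujan expansion of `rho`
-/

set_option autoImplicit false

open Finset Filter Topology

namespace Pool.Agent.H921.TD

open Pool.Agent.H329R2.AD (dk ram Pr SS)
open Pool.Agent.H592.TD

/-- The sum of Ramanujan's sums over the divisors of `g`. -/
theorem sum_ram (h g : ℕ) (hg : 0 < g) :
    ∑ e ∈ g.divisors, ram e h = if g ∣ h then (g : ℝ) else 0 := by
  have key := (ArithmeticFunction.sum_eq_iff_sum_mul_moebius_eq (R := ℝ)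
    (f := fun e => ram e h) (g := fun d => if d ∣ h then (d : ℝ) else 0)).2 ?_
  · exact key g hg
  · intro n _
    rw [Nat.sum_divisorsAntidiagonal' (fun i j => ((ArithmeticFunction.moebius i : ℤ) : ℝ) *
      (if j ∣ h then (j : ℝ) else 0))]
    unfold ram
    rw [Finset.sum_filter]
    apply Finset.sum_congr rfl
    intro d _
    split_ifs
    · rfl
    · rw [mul_zero]

/-- The number of elements of a class modulo `r` below `r * k`. -/
theorem class_card (r k v : ℕ) (hr : 0 < r) :
    ((range (r * k)).filter (fun c => c ≡ v [MOD r])).card = k := by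
  have h := Nat.count_modEq_card (b := r * k) hr v
  rw [Nat.count_eq_card_filter_range] at h
  rw [h, Nat.mul_mod_right, Nat.mul_div_cancel_left _ hr]
  simp

/-- Solutions of a linear congruence. -/
theorem lin_card (s : ℤ) (A M : ℕ) (hM : 0 < M) :
    ((range M).filter (fun c : ℕ => (M : ℤ) ∣ (A : ℤ) * c + s)).card =
      if Nat.gcd A M ∣ s.natAbs then Nat.gcd A M else 0 := by
  have hg : 0 < Nat.gcd A M := Nat.gcd_pos_of_pos_right _ hM
  obtain ⟨A', hA'⟩ := Nat.gcd_dvd_left A M
  obtain ⟨M', hM'⟩ := Nat.gcd_dvd_right A M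
  split_ifs with h
  · obtain ⟨s', hs'⟩ := Int.natCast_dvd.mpr h
    have hco : Nat.Coprime A' M' := by
      have h1 := Nat.coprime_div_gcd_div_gcd (m := A) (n := M) hg
      have e1 : A / Nat.gcd A M = A' := by
        conv_lhs => rw [hA']
        rw [← hA']
        exact Nat.div_eq_of_eq_mul_right hg hA'
      have e2 : M / Nat.gcd A M = M' := Nat.div_eq_of_eq_mul_right hg hM'
      rw [e1, e2] at h1
      exact h1
    have hM'0 : 0 < M' := by
      rcases Nat.eq_zero_or_pos M' with h0 | h0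
      · rw [h0, mul_zero] at hM'
        omega
      · exact h0
    have hcoI : IsCoprime (A' : ℤ) (M' : ℤ) := Nat.isCoprime_iff_coprime.mpr hco
    obtain ⟨x, y, hxy⟩ := hcoI
    -- the solution
    set c0 : ℕ := ((-s' * x) % (M' : ℤ)).toNat with hc0
    have hc0' : (c0 : ℤ) = (-s' * x) % (M' : ℤ) :=
      Int.toNat_of_nonneg (Int.emod_nonneg _ (by exact_mod_cast hM'0.ne'))
    have hsol : (M' : ℤ) ∣ (A' : ℤ) * c0 + s' := by
      have h1 : (M' : ℤ) ∣ (-s' * x) - (c0 : ℤ) := by
        rw [hc0']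
        exact Int.dvd_self_sub_emod
      obtain ⟨w, hw⟩ := h1
      refine ⟨s' * y - A' * w, ?_⟩
      linear_combination (-(A' : ℤ)) * hw + (-s') * hxy
    have hiff : ∀ c : ℕ, ((M : ℤ) ∣ (A : ℤ) * c + s) ↔ c ≡ c0 [MOD M'] := by
      intro c
      have hgI : (Nat.gcd A M : ℤ) ≠ 0 := by exact_mod_cast hg.ne'
      have e1 : (A : ℤ) * c + s = (Nat.gcd A M : ℤ) * ((A' : ℤ) * c + s') := by
        rw [hs']
        have : (A : ℤ) = (Nat.gcd A M : ℤ) * A' := by exact_mod_cast hA'
        rw [this]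
        ring
      have e2 : (M : ℤ) = (Nat.gcd A M : ℤ) * M' := by exact_mod_cast hM'
      rw [e1]
      conv_lhs => rw [e2]
      rw [mul_dvd_mul_iff_left hgI]
      constructor
      · intro h2
        have h3 : (M' : ℤ) ∣ (A' : ℤ) * ((c : ℤ) - c0) := by
          have := dvd_sub h2 hsol
          have e3 : (A' : ℤ) * c + s' - ((A' : ℤ) * c0 + s') = (A' : ℤ) * ((c : ℤ) - c0) := by
            ring
          rw [e3] at this
          exact this
        have h4 : (M' : ℤ) ∣ (c : ℤ) - c0 :=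
          (IsCoprime.symm ⟨x, y, hxy⟩ : IsCoprime (M' : ℤ) (A' : ℤ)).dvd_of_dvd_mul_left h3
        exact ((Nat.modEq_iff_dvd (n := M') (a := c0) (b := c)).mpr h4).symm
      · intro h2
        have h4 : (M' : ℤ) ∣ (c : ℤ) - c0 := (Nat.modEq_iff_dvd (n := M') (a := c0) (b := c)).mp
          h2.symm
        have e3 : (A' : ℤ) * c + s' = (A' : ℤ) * ((c : ℤ) - c0) + ((A' : ℤ) * c0 + s') := by ring
        rw [e3]
        exact dvd_add (Dvd.dvd.mul_left h4 _) hsol
    have e4 : (range M).filter (fun c : ℕ => (M : ℤ) ∣ (A : ℤ) * c + s) =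
        (range M).filter (fun c => c ≡ c0 [MOD M']) :=
      Finset.filter_congr (fun c _ => hiff c)
    rw [e4]
    have e5 : M = M' * Nat.gcd A M := by rw [mul_comm]; exact hM'
    have e6 := class_card M' (Nat.gcd A M) c0 hM'0
    rw [← e5] at e6
    exact e6
  · rw [Finset.card_eq_zero, Finset.filter_eq_empty_iff]
    intro c _ hc
    apply h
    have h1 : (Nat.gcd A M : ℤ) ∣ (A : ℤ) * c + s :=
      (Int.natCast_dvd_natCast.mpr (Nat.gcd_dvd_right A M)).trans hc
    have h2 : (Nat.gcd A M : ℤ) ∣ (A : ℤ) * c :=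
      Dvd.dvd.mul_right (Int.natCast_dvd_natCast.mpr (Nat.gcd_dvd_left A M)) _
    have h3 : (Nat.gcd A M : ℤ) ∣ s := (dvd_add_right h2).mp h1
    exact Int.natCast_dvd.mp h3

/-- The number of `b < M` with `e ∣ a b`, `e ∣ M`. -/
theorem mult_card (a e M : ℕ) (he : 0 < e) (hM : 0 < M) (heM : e ∣ M) :
    (((range M).filter (fun b : ℕ => e ∣ a * b)).card : ℝ) = M * ((Nat.gcd a e : ℝ) / e) := by
  have hg : 0 < Nat.gcd a e := Nat.gcd_pos_of_pos_right _ he
  obtain ⟨a', ha'⟩ := Nat.gcd_dvd_left a e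
  obtain ⟨e', he'⟩ := Nat.gcd_dvd_right a e
  obtain ⟨k, hk⟩ := heM
  have hco : Nat.Coprime a' e' := by
    have h1 := Nat.coprime_div_gcd_div_gcd (m := a) (n := e) hg
    have e1 : a / Nat.gcd a e = a' := Nat.div_eq_of_eq_mul_right hg ha'
    have e2 : e / Nat.gcd a e = e' := Nat.div_eq_of_eq_mul_right hg he'
    rw [e1, e2] at h1
    exact h1
  have he'0 : 0 < e' := by
    rcases Nat.eq_zero_or_pos e' with h0 | h0
    · rw [h0, mul_zero] at he'
      omega
    · exact h0
  have hiff : ∀ b : ℕ, e ∣ a * b ↔ b ≡ 0 [MOD e'] := by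
    intro b
    rw [Nat.modEq_zero_iff_dvd]
    have e1 : a * b = Nat.gcd a e * (a' * b) := by
      conv_lhs => rw [ha']
      ring
    have e0 : (e ∣ a * b) ↔ (Nat.gcd a e * e' ∣ Nat.gcd a e * (a' * b)) := by
      rw [← e1, ← he']
    rw [e0, Nat.mul_dvd_mul_iff_left hg]
    constructor
    · intro h
      exact (Nat.Coprime.symm hco).dvd_of_dvd_mul_left h
    · intro h
      exact Dvd.dvd.mul_left h _
  have e2 : (range M).filter (fun b : ℕ => e ∣ a * b) =
      (range M).filter (fun b => b ≡ 0 [MOD e']) :=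
    Finset.filter_congr (fun b _ => hiff b)
  have e3 : M = e' * (Nat.gcd a e * k) := by
    rw [hk]
    conv_lhs => rw [he']
    ring
  have e4 := class_card e' (Nat.gcd a e * k) 0 he'0
  rw [← e3] at e4
  rw [e2, e4]
  have he0 : (e : ℝ) ≠ 0 := by exact_mod_cast he.ne'
  have hk' : (M : ℝ) = e * k := by exact_mod_cast hk
  rw [hk']
  push_cast
  field_simp

theorem s2 : S2 := by
  intro s a M hs ha hM
  have hM0 : (M : ℝ) ≠ 0 := by
    have : M ≠ 0 := by omega
    exact_mod_cast this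
  unfold rho
  -- the number of the pairs
  have h1 : ((((range M ×ˢ range M).filter
      (fun p : ℕ × ℕ => (M : ℤ) ∣ (a : ℤ) * p.1 * p.2 + s)).card : ℕ) : ℝ) =
      ∑ b ∈ range M, ∑ e ∈ (Nat.gcd (a * b) M).divisors, ram e s.natAbs := by
    rw [Finset.card_filter, Finset.sum_product]
    push_cast
    apply Finset.sum_congr rfl
    intro b _
    have hg : 0 < Nat.gcd (a * b) M := Nat.gcd_pos_of_pos_right _ hM
    rw [sum_ram _ _ hg]
    have h2 := lin_card s (a * b) M hM
    rw [Finset.card_filter] at h2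
    have h3 := congrArg (fun n : ℕ => (n : ℝ)) h2
    simp only [Nat.cast_sum, Nat.cast_ite, Nat.cast_one, Nat.cast_zero, Nat.cast_mul] at h3
    exact h3
  -- interchange
  have h2 : ∑ b ∈ range M, ∑ e ∈ (Nat.gcd (a * b) M).divisors, ram e s.natAbs =
      ∑ e ∈ M.divisors, ram e s.natAbs *
        (((range M).filter (fun b : ℕ => e ∣ a * b)).card : ℝ) := by
    have h3 : ∀ b ∈ range M, ∑ e ∈ (Nat.gcd (a * b) M).divisors, ram e s.natAbs =
        ∑ e ∈ M.divisors, if e ∣ a * b then ram e s.natAbs else 0 := by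
      intro b _
      rw [← Finset.sum_filter]
      apply Finset.sum_congr _ (fun _ _ => rfl)
      ext e
      rw [Nat.mem_divisors, Finset.mem_filter, Nat.mem_divisors, Nat.dvd_gcd_iff]
      constructor
      · rintro ⟨⟨h4, h5⟩, -⟩
        exact ⟨⟨h5, by omega⟩, h4⟩
      · rintro ⟨⟨h5, -⟩, h4⟩
        exact ⟨⟨h4, h5⟩, (Nat.gcd_pos_of_pos_right _ hM).ne'⟩
    rw [Finset.sum_congr rfl h3, Finset.sum_comm]
    apply Finset.sum_congr rfl
    intro e _
    rw [← Finset.sum_filter, Finset.sum_const, nsmul_eq_mul, mul_comm]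
  rw [h1, h2]
  have h4 : ∑ e ∈ M.divisors, ram e s.natAbs *
      (((range M).filter (fun b : ℕ => e ∣ a * b)).card : ℝ) =
      M * ∑ e ∈ M.divisors, ram e s.natAbs * ((Nat.gcd a e : ℝ) / e) := by
    rw [Finset.mul_sum]
    apply Finset.sum_congr rfl
    intro e he
    have he' := Nat.mem_divisors.mp he
    rw [mult_card a e M (Nat.pos_of_dvd_of_pos he'.1 hM) hM he'.1]
    ring
  rw [h4]
  field_simp

end Pool.Agent.H921.TD
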